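import Pool.Agent.Lib.MP_99fcc5_gt.H95Main
import Pool.Agent.Shared.Sing.Bridge

namespace Pool.Agent.Lib.MP_99fcc5_gt.Variants.SelfSumTC

open Pool.Agent.Lib.MP_c77dc5_gt Pool.Agent.Sing

/-- `H_n(M; ℚ) ≠ 0`: some rational `n`-cycle is not a boundary. -/
def HomNe (M : Type) [TopologicalSpace M] (n : ℕ) : Prop := ∃ μ ∈ cyc ℚ M n, μ ∉ bdry ℚ M n

/-- `c_* : H_k(M; ℚ) → H_k(B; ℚ)` is nonzero: the image of some `k`-cycle is not a boundary. -/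
def MapNe {M B : Type} [TopologicalSpace M] [TopologicalSpace B] (c : C(M, B)) (k : ℕ) : Prop :=
  ∃ z ∈ cyc ℚ M k, push ℚ c k z ∉ bdry ℚ B k

theorem result (n : ℕ) (hn : 3 ≤ n) (M : Type) [TopologicalSpace M] [T2Space M] [CompactSpace M]
    [ConnectedSpace M] [ChartedSpace (EuclideanSpace ℝ (Fin n)) M] (hM : HomNe M n)
    (B : Type) [TopologicalSpace B] [LocallyPathConnectedSpace B] (hB : Aspherical B)
    (c : C(M, B)) (hc : MapNe c 2)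
    (e₁ e₂ : EuclideanSpace ℝ (Fin n) → M) (he₁ : Topology.IsOpenEmbedding e₁)
    (he₂ : Topology.IsOpenEmbedding e₂) :
    7 ≤ TC (ConnSum e₁ e₂) := by
  refine le_sInf ?_
  rintro _ ⟨k, ⟨U, u1, u2, u3⟩, rfl⟩
  obtain ⟨E, _, p, _, q, s⟩ := hB
  obtain ⟨μ, m1, m2⟩ := hM
  obtain ⟨z, z1, z2⟩ := hc
  have : Nonempty B := ⟨c (e₁ 0)⟩
  have : NeZero n := ⟨by omega⟩
  have : Infinite (EuclideanSpace ℝ (Fin n)) := Module.Free.infinite ℝ _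
  have := Infinite.of_injective e₁ he₁.injective
  have : Nonempty (ConnSum e₁ e₂) := ⟨Quot.mk _ (.inl ⟨_, (exists_ne (e₁ 0)).choose_spec⟩)⟩
  obtain ⟨f₁, f₂, H, H'⟩ := connSum_half he₁ he₂
  exact_mod_cast Lib.MP_99fcc5_gt.seven_le hn q s c.continuous (Shared.Sing.br_mem_Z.2 m1)
    (mt Shared.Sing.br_mem_B.1 m2) (Shared.Sing.br_mem_Z.2 z1)
    (Shared.Sing.br_push c z ▸ mt Shared.Sing.br_mem_B.1 z2) H H' u1 u2 u3

end Pool.Agent.Lib.MP_99fcc5_gt.Variants.SelfSumTC
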